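import Pool.Agent.Helper30.EL.St

/-!
# Project EL, module SWB: no bias of the characters of small discriminants on a box
-/

set_option autoImplicit false

noncomputable section

namespace Pool.Agent.Helper84.EL

open Finset Filter Topology ArithmeticFunction
open Pool.Agent.Helper30.EL
open Pool.Agent.Helper93.KS (bq)
open Pool.Agent.Helper48.BK (StSW th)

/-! ### the character -/

private theorem jac_m1 (d : ℕ) (hd : 1 ≤ d) : jacobiSym (-(d : ℤ)) (4 * d - 1) = -1 := by
  have hodd : Odd (4 * d - 1) := ⟨2 * d - 1, by omega⟩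
  have hcop : IsCoprime (2 : ℤ) ((4 * d - 1 : ℕ) : ℤ) := by
    rw [show (2 : ℤ) = ((2 : ℕ) : ℤ) from rfl, Nat.isCoprime_iff_coprime, Nat.coprime_two_left]
    exact hodd
  have h1 : jacobiSym (-1) (4 * d - 1) = -1 := by
    rw [jacobiSym.at_neg_one hodd]
    exact ZMod.χ₄_nat_three_mod_four (by omega)
  have h2 : jacobiSym ((2 : ℤ) ^ 2 * d) (4 * d - 1) = 1 := by
    rw [jacobiSym.mod_left]
    have : ((2 : ℤ) ^ 2 * d) % ((4 * d - 1 : ℕ) : ℤ) = 1 % ((4 * d - 1 : ℕ) : ℤ) := by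
      have e : ((2 : ℤ) ^ 2 * d) = 1 + ((4 * d - 1 : ℕ) : ℤ) := by
        push_cast [Nat.cast_sub (show 1 ≤ 4 * d by omega)]
        ring
      rw [e, Int.add_emod_right]
    rw [this, ← jacobiSym.mod_left, jacobiSym.one_left]
  rw [jacobiSym.mul_left, jacobiSym.sq_one' (by rw [Int.isCoprime_iff_gcd_eq_one] at hcop; exact hcop), one_mul] at h2
  rw [show (-(d : ℤ)) = (-1) * d by ring, jacobiSym.mul_left, h1, h2]
  norm_num

private theorem jac_refl (d u : ℕ) (hd : 1 ≤ d) (hu : Odd u) (hu' : u < 4 * d) :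
    jacobiSym (-(d : ℤ)) (4 * d - u) = -jacobiSym (-(d : ℤ)) u := by
  have hodd : Odd (4 * d - 1) := ⟨2 * d - 1, by omega⟩
  have hodd2 : Odd (4 * d - u) := by
    obtain ⟨k, hk⟩ := hu
    exact ⟨2 * d - k - 1, by omega⟩
  have e : (4 * d - u) % (4 * d) = ((4 * d - 1) * u) % (4 * d) := by
    have h1 : (4 * d - 1) * u + u = 4 * d * u := by
      rw [← Nat.succ_mul]
      congr 1
      omega
    have h2 : (4 * d - u) + u = 4 * d := by omega
    have h3 : (4 * d - u) + u ≡ (4 * d - 1) * u + u [MOD 4 * d] := by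
      rw [h1, h2]
      unfold Nat.ModEq
      simp
    exact Nat.ModEq.add_right_cancel' u h3
  have hn : (-(d : ℤ)).natAbs = d := by simp
  rw [jacobiSym.mod_right _ hodd2, hn, e]
  have h4 := jacobiSym.mod_right (-(d : ℤ)) (hodd.mul hu)
  rw [hn] at h4
  rw [← h4, jacobiSym.mul_right' _ (by omega) (by rintro rfl; simp at hu), jac_m1 d hd]
  ring

/-- the character modulo `4 d` -/
private def chi (d n : ℕ) : ℝ := if Nat.Coprime n (4 * d) then (jacobiSym (-(d : ℤ)) n : ℝ) else 0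

private theorem chi_abs (d n : ℕ) : |chi d n| ≤ 1 := by
  unfold chi
  split_ifs with h
  · rcases jacobiSym.trichotomy (-(d : ℤ)) n with h1 | h1 | h1 <;> rw [h1] <;> norm_num
  · simp

private theorem cop_odd {d n : ℕ} (h : Nat.Coprime n (4 * d)) : Odd n := by
  rw [← Nat.coprime_two_right]
  exact Nat.Coprime.coprime_dvd_right (by exact ⟨2 * d, by ring⟩) h

private theorem chi_mod (d n : ℕ) : chi d n = chi d (n % (4 * d)) := by
  unfold chi
  have h1 : Nat.Coprime (n % (4 * d)) (4 * d) ↔ Nat.Coprime n (4 * d) := by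
    rw [Nat.coprime_iff_gcd_eq_one, Nat.coprime_iff_gcd_eq_one, ← Nat.gcd_rec, Nat.gcd_comm]
  by_cases h : Nat.Coprime n (4 * d)
  · rw [if_pos h, if_pos (h1.mpr h)]
    have hn : (-(d : ℤ)).natAbs = d := by simp
    have h4 := jacobiSym.mod_right (-(d : ℤ)) (cop_odd h)
    rw [hn] at h4
    rw [h4]
  · rw [if_neg h, if_neg (fun h' => h (h1.mp h'))]

private theorem chi_sum (d : ℕ) (hd : 1 ≤ d) : ∑ u ∈ range (4 * d), chi d u = 0 := by
  have key : ∑ u ∈ range (4 * d), chi d u = ∑ u ∈ range (4 * d), -chi d u := by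
    have h0 : ∀ f : ℕ → ℝ, f 0 = 0 → ∑ u ∈ range (4 * d), f u = ∑ u ∈ Ioo 0 (4 * d), f u := by
      intro f hf
      symm
      refine Finset.sum_subset (fun x hx => ?_) (fun x hx hx' => ?_)
      · rw [mem_Ioo] at hx
        exact mem_range.mpr hx.2
      · rw [mem_range] at hx
        rw [mem_Ioo] at hx'
        have : x = 0 := by omega
        rw [this, hf]
    have hz : chi d 0 = 0 := by
      unfold chi
      rw [if_neg]
      rw [Nat.coprime_zero_left]
      omega
    rw [h0 _ hz, h0 _ (by rw [hz, neg_zero])]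
    refine Finset.sum_nbij' (fun u => 4 * d - u) (fun u => 4 * d - u) ?_ ?_ ?_ ?_ ?_
    · intro u hu
      rw [mem_Ioo] at hu ⊢
      omega
    · intro u hu
      rw [mem_Ioo] at hu ⊢
      omega
    · intro u hu
      rw [mem_Ioo] at hu
      omega
    · intro u hu
      rw [mem_Ioo] at hu
      omega
    · intro u hu
      rw [mem_Ioo] at hu
      have h1 : Nat.Coprime (4 * d - u) (4 * d) ↔ Nat.Coprime u (4 * d) := by
        have h3 : Nat.gcd (4 * d) (4 * d - u) = Nat.gcd (4 * d) u := by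
          rw [Nat.gcd_self_sub_right hu.2.le]
        rw [Nat.coprime_comm, Nat.coprime_comm (n := u)]
        unfold Nat.Coprime
        rw [h3]
      unfold chi
      by_cases h : Nat.Coprime u (4 * d)
      · rw [if_pos h, if_pos (h1.mpr h), jac_refl d u hd (cop_odd h) hu.2]
        push_cast
        ring
      · rw [if_neg h, if_neg (fun h' => h (h1.mp h')), neg_zero]
  rw [Finset.sum_neg_distrib] at key
  linarith

private theorem chi_prime (d p : ℕ) (hp : p.Prime) (h2 : 2 < p) :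
    chi d p = (jacobiSym (-(d : ℤ)) p : ℝ) := by
  unfold chi
  split_ifs with h
  · rfl
  · rw [Nat.Prime.coprime_iff_not_dvd hp, not_not] at h
    have h3 : p ∣ d := by
      rcases hp.dvd_mul.mp h with h4 | h4
      · exfalso
        have h5 : p ∣ 2 := hp.dvd_of_dvd_pow (show p ∣ 2 ^ 2 by simpa using h4)
        have := Nat.le_of_dvd (by norm_num) h5
        omega
      · exact h4
    have : jacobiSym (-(d : ℤ)) p = 0 := by
      have : NeZero p := ⟨hp.ne_zero⟩
      rw [jacobiSym.eq_zero_iff_not_coprime]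
      intro h6
      have h7 : (p : ℤ) ∣ Int.gcd (-(d : ℤ)) p := by
        rw [Int.gcd_eq_natAbs]
        have : p ∣ Nat.gcd (-(d : ℤ)).natAbs (p : ℤ).natAbs := by
          refine Nat.dvd_gcd ?_ ?_
          · simpa using h3
          · simp
        exact_mod_cast this
      rw [h6] at h7
      have h8 : p ∣ 1 := by exact_mod_cast h7
      exact hp.one_lt.ne' (Nat.dvd_one.mp h8)
    rw [this]
    simp

/-! ### the sum over the primes -/

private theorem tsum (d y : ℕ) (R : ℝ) (hd : 1 ≤ d)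
    (h : ∀ u : ℕ, |∑ n ∈ (Ioc 0 y).filter (fun n => n ≡ u [MOD 4 * d]), th n -
      (if Nat.Coprime u (4 * d) then (y : ℝ) / Nat.totient (4 * d) else 0)| ≤ R) :
    |∑ n ∈ Ioc 0 y, th n * chi d n| ≤ 4 * d * R := by
  have e1 : ∑ n ∈ Ioc 0 y, th n * chi d n =
      ∑ u ∈ range (4 * d), chi d u * ∑ n ∈ (Ioc 0 y).filter (fun n => n ≡ u [MOD 4 * d]), th n := by
    rw [← Finset.sum_fiberwise_of_maps_to (s := Ioc 0 y) (t := range (4 * d))
      (g := fun n => n % (4 * d)) (fun n _ => mem_range.mpr (Nat.mod_lt _ (by omega)))]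
    refine Finset.sum_congr rfl fun u hu => ?_
    rw [Finset.mul_sum]
    have e2 : (Ioc 0 y).filter (fun n => n % (4 * d) = u) =
        (Ioc 0 y).filter (fun n => n ≡ u [MOD 4 * d]) := by
      refine Finset.filter_congr fun n _ => ?_
      unfold Nat.ModEq
      rw [Nat.mod_eq_of_lt (mem_range.mp hu)]
    rw [e2]
    refine Finset.sum_congr rfl fun n hn => ?_
    rw [mem_filter] at hn
    have e3 : n % (4 * d) = u := by
      have := hn.2
      unfold Nat.ModEq at this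
      rw [this, Nat.mod_eq_of_lt (mem_range.mp hu)]
    rw [chi_mod d n, e3]
    ring
  have e4 : ∑ u ∈ range (4 * d), chi d u *
      (if Nat.Coprime u (4 * d) then (y : ℝ) / Nat.totient (4 * d) else 0) = 0 := by
    have : ∀ u ∈ range (4 * d), chi d u *
        (if Nat.Coprime u (4 * d) then (y : ℝ) / Nat.totient (4 * d) else 0) =
        chi d u * ((y : ℝ) / Nat.totient (4 * d)) := by
      intro u _
      by_cases hc : Nat.Coprime u (4 * d)
      · rw [if_pos hc]
      · rw [if_neg hc]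
        unfold chi
        rw [if_neg hc]
        simp
    rw [Finset.sum_congr rfl this, ← Finset.sum_mul, chi_sum d hd, zero_mul]
  have e5 : ∑ n ∈ Ioc 0 y, th n * chi d n = ∑ u ∈ range (4 * d), chi d u *
      (∑ n ∈ (Ioc 0 y).filter (fun n => n ≡ u [MOD 4 * d]), th n -
        (if Nat.Coprime u (4 * d) then (y : ℝ) / Nat.totient (4 * d) else 0)) := by
    have e6 : ∑ u ∈ range (4 * d), chi d u *
        (∑ n ∈ (Ioc 0 y).filter (fun n => n ≡ u [MOD 4 * d]), th n -
          (if Nat.Coprime u (4 * d) then (y : ℝ) / Nat.totient (4 * d) else 0)) =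
        ∑ u ∈ range (4 * d), chi d u * ∑ n ∈ (Ioc 0 y).filter (fun n => n ≡ u [MOD 4 * d]), th n -
        ∑ u ∈ range (4 * d), chi d u *
          (if Nat.Coprime u (4 * d) then (y : ℝ) / Nat.totient (4 * d) else 0) := by
      rw [← Finset.sum_sub_distrib]
      exact Finset.sum_congr rfl fun u _ => mul_sub _ _ _
    rw [e6, e4, sub_zero, e1]
  rw [e5]
  calc |∑ u ∈ range (4 * d), chi d u *
      (∑ n ∈ (Ioc 0 y).filter (fun n => n ≡ u [MOD 4 * d]), th n -
        (if Nat.Coprime u (4 * d) then (y : ℝ) / Nat.totient (4 * d) else 0))|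
      ≤ ∑ u ∈ range (4 * d), |chi d u *
      (∑ n ∈ (Ioc 0 y).filter (fun n => n ≡ u [MOD 4 * d]), th n -
        (if Nat.Coprime u (4 * d) then (y : ℝ) / Nat.totient (4 * d) else 0))| :=
        Finset.abs_sum_le_sum_abs _ _
    _ ≤ ∑ _u ∈ range (4 * d), R := by
        refine Finset.sum_le_sum fun u _ => ?_
        rw [abs_mul]
        calc _ ≤ 1 * R := mul_le_mul (chi_abs d u) (h u) (abs_nonneg _) zero_le_one
          _ = R := one_mul R
    _ = 4 * d * R := by
        rw [Finset.sum_const, card_range, nsmul_eq_mul]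
        push_cast
        ring

/-! ### Abel summation -/

private theorem abel (f g : ℕ → ℝ) (M N : ℕ) (h : M ≤ N) :
    ∑ n ∈ Ioc M N, f n * g n = (∑ n ∈ Ioc 0 N, f n) * g N - (∑ n ∈ Ioc 0 M, f n) * g M +
      ∑ n ∈ Ico M N, (∑ k ∈ Ioc 0 n, f k) * (g n - g (n + 1)) := by
  induction N, h using Nat.le_induction with
  | base => simp
  | succ N hN ih =>
    rw [Finset.sum_Ioc_succ_top (by omega), Finset.sum_Ico_succ_top hN, ih,
      Finset.sum_Ioc_succ_top (Nat.zero_le N)]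
    ring

private theorem harm (M N : ℕ) (h1 : 1 ≤ M) (h : M ≤ N) :
    ∑ n ∈ Ioc M N, 1 / (n : ℝ) ≤ Real.log N - Real.log M := by
  induction N, h using Nat.le_induction with
  | base => simp
  | succ N hN ih =>
    rw [Finset.sum_Ioc_succ_top (by omega)]
    have hN0 : (0 : ℝ) < N := by exact_mod_cast (by omega : 0 < N)
    have hN1 : (0 : ℝ) < ((N + 1 : ℕ) : ℝ) := by exact_mod_cast (by omega : 0 < N + 1)
    have h3 := Real.one_sub_inv_le_log_of_pos (div_pos hN1 hN0)
    rw [Real.log_div hN1.ne' hN0.ne', inv_div] at h3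
    have h4 : 1 - (N : ℝ) / ((N + 1 : ℕ) : ℝ) = 1 / ((N + 1 : ℕ) : ℝ) := by
      field_simp
      push_cast
      ring
    rw [h4] at h3
    linarith

private theorem bound (f : ℕ → ℝ) (R : ℝ) (M N : ℕ) (hM : 3 ≤ M) (h : M ≤ N)
    (hf : ∀ n : ℕ, M ≤ n → |∑ k ∈ Ioc 0 n, f k| ≤ R * n) :
    |∑ n ∈ Ioc M N, f n * (1 / ((n : ℝ) * Real.log n))| ≤ R * (3 + Real.log N) := by
  have hM1 : ∀ n : ℕ, M ≤ n → 1 ≤ Real.log n := by
    intro n hn
    rw [Real.le_log_iff_exp_le (by exact_mod_cast (by omega : 0 < n))]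
    have h3 : (3 : ℝ) ≤ n := by exact_mod_cast (by omega : 3 ≤ n)
    linarith [Real.exp_one_lt_d9]
  have hn0 : ∀ n : ℕ, M ≤ n → (0 : ℝ) < n := fun n hn => by exact_mod_cast (by omega : 0 < n)
  set g : ℕ → ℝ := fun n => 1 / ((n : ℝ) * Real.log n) with hg
  have hR : 0 ≤ R := by
    have h1 := (abs_nonneg _).trans (hf M le_rfl)
    by_contra hcon
    push Not at hcon
    nlinarith [hn0 M le_rfl]
  have hg0 : ∀ n : ℕ, M ≤ n → 0 ≤ g n := by
    intro n hn
    have h1 := hM1 n hn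
    have h2 := hn0 n hn
    positivity
  have hg1 : ∀ n : ℕ, M ≤ n → g n ≤ 1 / n := by
    intro n hn
    have h1 := hM1 n hn
    have h2 := hn0 n hn
    rw [hg]
    refine one_div_le_one_div_of_le h2 ?_
    nlinarith
  have hga : ∀ n : ℕ, M ≤ n → 0 ≤ g n - g (n + 1) := by
    intro n hn
    have h1 := hM1 n hn
    have h2 := hn0 n hn
    have h3 : Real.log n ≤ Real.log ((n + 1 : ℕ) : ℝ) := Real.log_le_log h2 (by push_cast; linarith)
    rw [sub_nonneg, hg]
    refine one_div_le_one_div_of_le (by positivity) ?_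
    refine mul_le_mul (by push_cast; linarith) h3 (by linarith) (by positivity)
  have hng : ∀ n : ℕ, M ≤ n → (n : ℝ) * g n ≤ 1 := by
    intro n hn
    calc (n : ℝ) * g n ≤ n * (1 / n) := mul_le_mul_of_nonneg_left (hg1 n hn) (hn0 n hn).le
      _ = 1 := by field_simp [(hn0 n hn).ne']
  have hone := abel (fun _ => 1) g M N h
  simp only [one_mul, Finset.sum_const, Nat.card_Ioc, Nat.sub_zero, nsmul_eq_mul, mul_one] at hone
  have hs : ∑ n ∈ Ico M N, (n : ℝ) * (g n - g (n + 1)) ≤ Real.log N + 1 := by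
    have h1 : ∑ n ∈ Ioc M N, g n ≤ ∑ n ∈ Ioc M N, 1 / (n : ℝ) :=
      Finset.sum_le_sum fun n hn => hg1 n (by rw [mem_Ioc] at hn; omega)
    have h2 := harm M N (by omega) h
    have h3 := hM1 M le_rfl
    have h4 := hng M le_rfl
    have h5 : 0 ≤ (N : ℝ) * g N := mul_nonneg (hn0 N h).le (hg0 N h)
    linarith
  change |∑ n ∈ Ioc M N, f n * g n| ≤ _
  rw [abel f g M N h]
  have hTN : |(∑ n ∈ Ioc 0 N, f n) * g N| ≤ R := by
    rw [abs_mul, abs_of_nonneg (hg0 N h)]
    calc |∑ n ∈ Ioc 0 N, f n| * g N ≤ R * N * g N := mul_le_mul_of_nonneg_right (hf N h) (hg0 N h)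
      _ = R * (N * g N) := by ring
      _ ≤ R * 1 := mul_le_mul_of_nonneg_left (hng N h) hR
      _ = R := mul_one R
  have hTM : |(∑ n ∈ Ioc 0 M, f n) * g M| ≤ R := by
    rw [abs_mul, abs_of_nonneg (hg0 M le_rfl)]
    calc |∑ n ∈ Ioc 0 M, f n| * g M ≤ R * M * g M :=
          mul_le_mul_of_nonneg_right (hf M le_rfl) (hg0 M le_rfl)
      _ = R * (M * g M) := by ring
      _ ≤ R * 1 := mul_le_mul_of_nonneg_left (hng M le_rfl) hR
      _ = R := mul_one R
  have hTS : |∑ n ∈ Ico M N, (∑ k ∈ Ioc 0 n, f k) * (g n - g (n + 1))| ≤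
      R * (Real.log N + 1) := by
    calc |∑ n ∈ Ico M N, (∑ k ∈ Ioc 0 n, f k) * (g n - g (n + 1))|
        ≤ ∑ n ∈ Ico M N, |(∑ k ∈ Ioc 0 n, f k) * (g n - g (n + 1))| :=
          Finset.abs_sum_le_sum_abs _ _
      _ ≤ ∑ n ∈ Ico M N, R * ((n : ℝ) * (g n - g (n + 1))) := by
          refine Finset.sum_le_sum fun n hn => ?_
          rw [mem_Ico] at hn
          rw [abs_mul, abs_of_nonneg (hga n hn.1), ← mul_assoc]
          exact mul_le_mul_of_nonneg_right (hf n hn.1) (hga n hn.1)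
      _ = R * ∑ n ∈ Ico M N, (n : ℝ) * (g n - g (n + 1)) := by rw [Finset.mul_sum]
      _ ≤ R * (Real.log N + 1) := mul_le_mul_of_nonneg_left hs hR
  rw [abs_le] at hTN hTM hTS ⊢
  constructor <;> nlinarith

/-! ### the end -/

theorem hSWB (hS : StSW) : StSWB := by
  intro C₁ u i η hu hi hη
  obtain ⟨x₀, hx₀⟩ := hS (C₁ + 2) (C₁ + 1)
  set ω : ℝ := 1 / (100 * u) with hω
  have hu0 : (0 : ℝ) < u := by exact_mod_cast (by omega : 0 < u)
  have hi0 : (0 : ℝ) < i := by exact_mod_cast (by omega : 0 < i)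
  have hω0 : 0 < ω := by positivity
  set κ : ℝ := i * ω / 2 with hκ
  have hκ0 : 0 < κ := by positivity
  set κ' : ℝ := (i + 1) * ω with hκ'
  have hκ'0 : 0 < κ' := by positivity
  set L₀ : ℝ := 1 + Real.log 4 / (i * ω) + Real.log (x₀ + 1) / (i * ω) + 4 / κ ^ (C₁ + 1) +
    4 * (3 + κ') / (κ ^ (C₁ + 2) * η) with hL₀
  have p1 : 0 ≤ Real.log 4 / (i * ω) := div_nonneg (Real.log_nonneg (by norm_num)) (by positivity)
  have p2 : 0 ≤ Real.log (x₀ + 1) / (i * ω) :=
    div_nonneg (Real.log_nonneg (by linarith [(Nat.cast_nonneg x₀ : (0 : ℝ) ≤ x₀)])) (by positivity)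
  have p3 : 0 ≤ 4 / κ ^ (C₁ + 1) := by positivity
  have p4 : 0 ≤ 4 * (3 + κ') / (κ ^ (C₁ + 2) * η) := by positivity
  refine ⟨⌈Real.exp L₀⌉₊, fun a d ha hd hdL => ?_⟩
  have haE : Real.exp L₀ ≤ a := (Nat.le_ceil _).trans (by exact_mod_cast ha)
  have ha0 : (0 : ℝ) < a := (Real.exp_pos _).trans_le haE
  set L : ℝ := Real.log a with hL
  have hLL : L₀ ≤ L := by
    rw [hL, Real.le_log_iff_exp_le ha0]
    exact haE
  have hL1 : 1 ≤ L := by linarith
  have hL0 : 0 < L := by linarith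
  -- the endpoints
  set X : ℝ := (a : ℝ) ^ ((i : ℝ) * ω) with hX
  set Y : ℝ := (a : ℝ) ^ (((i : ℝ) + 1) * ω) with hY
  have hXe : X = Real.exp (i * ω * L) := by
    rw [hX, Real.rpow_def_of_pos ha0, mul_comm]
  have hYe : Y = Real.exp (κ' * L) := by
    rw [hY, Real.rpow_def_of_pos ha0, mul_comm]
  have hiω : 0 < i * ω := by positivity
  have hX4 : 4 ≤ X := by
    rw [hXe, ← Real.log_le_iff_le_exp (by norm_num)]
    have : Real.log 4 / (i * ω) ≤ L := by linarith
    rw [div_le_iff₀ hiω] at this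
    linarith
  have hXx : (x₀ : ℝ) + 1 ≤ X := by
    rw [hXe, ← Real.log_le_iff_le_exp (by positivity)]
    have : Real.log (x₀ + 1) / (i * ω) ≤ L := by linarith
    rw [div_le_iff₀ hiω] at this
    linarith
  have hXY : X ≤ Y := by
    rw [hXe, hYe]
    refine Real.exp_le_exp.mpr (mul_le_mul_of_nonneg_right ?_ hL0.le)
    rw [hκ']
    nlinarith
  have hXs : Real.exp (κ * L) ^ 2 = X := by
    rw [hXe, ← Real.exp_nat_mul]
    congr 1
    rw [hκ]
    push_cast
    ring
  have hsX : Real.exp (κ * L) ≤ X - 1 := by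
    have h1 : 0 < Real.exp (κ * L) := Real.exp_pos _
    nlinarith
  obtain ⟨M, hM⟩ : ∃ M : ℕ, ⌈X⌉₊ = M + 1 := by
    have : 0 < ⌈X⌉₊ := Nat.ceil_pos.mpr (by linarith)
    exact ⟨⌈X⌉₊ - 1, by omega⟩
  obtain ⟨N, hN⟩ : ∃ N : ℕ, ⌈Y⌉₊ = N + 1 := by
    have : 0 < ⌈Y⌉₊ := Nat.ceil_pos.mpr (by linarith)
    exact ⟨⌈Y⌉₊ - 1, by omega⟩
  have hMX : X - 1 ≤ M := by
    have := Nat.le_ceil X
    rw [hM] at this
    push_cast at this
    linarith
  have hNY : (N : ℝ) ≤ Y := by
    have := Nat.ceil_lt_add_one (show 0 ≤ Y by linarith)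
    rw [hN] at this
    push_cast at this
    linarith
  have hMN : M ≤ N := by
    have := Nat.ceil_le_ceil hXY
    omega
  have hM3 : 3 ≤ M := by
    have : (3 : ℝ) ≤ M := by linarith
    exact_mod_cast this
  have hMx : x₀ ≤ M := by
    have : (x₀ : ℝ) ≤ M := by linarith
    exact_mod_cast this
  -- the sum
  have hd0 : (0 : ℝ) < d := by exact_mod_cast (by omega : 0 < d)
  set R : ℝ := 4 * d / (κ * L) ^ (C₁ + 2) with hR
  have hf : ∀ n : ℕ, M ≤ n → |∑ k ∈ Ioc 0 n, th k * chi d k| ≤ R * n := by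
    intro n hn
    have hnr : (M : ℝ) ≤ n := by exact_mod_cast hn
    have hlog : κ * L ≤ Real.log n := by
      rw [Real.le_log_iff_exp_le (by linarith)]
      linarith
    have hq : ((4 * d : ℕ) : ℝ) ≤ Real.log n ^ (C₁ + 1) := by
      have h1 : (κ * L) ^ (C₁ + 1) ≤ Real.log n ^ (C₁ + 1) :=
        pow_le_pow_left₀ (by positivity) hlog _
      have h2 : 4 / κ ^ (C₁ + 1) ≤ L := by linarith
      rw [div_le_iff₀ (by positivity)] at h2
      have h3 : 4 * (d : ℝ) ≤ (κ * L) ^ (C₁ + 1) := by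
        calc 4 * (d : ℝ) ≤ (L * κ ^ (C₁ + 1)) * L ^ C₁ := mul_le_mul h2 hdL hd0.le (by positivity)
          _ = (κ * L) ^ (C₁ + 1) := by ring
      push_cast
      linarith
    have h1 := tsum d n ((n : ℝ) / Real.log n ^ (C₁ + 2)) hd
      (fun v => hx₀ n n (4 * d) v (by omega) le_rfl (by omega) hq)
    refine h1.trans ?_
    have h2 : (n : ℝ) / Real.log n ^ (C₁ + 2) ≤ n / (κ * L) ^ (C₁ + 2) :=
      div_le_div_of_nonneg_left (by positivity) (by positivity)
        (pow_le_pow_left₀ (by positivity) hlog _)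
    calc 4 * (d : ℝ) * ((n : ℝ) / Real.log n ^ (C₁ + 2)) ≤ 4 * d * (n / (κ * L) ^ (C₁ + 2)) :=
          mul_le_mul_of_nonneg_left h2 (by positivity)
      _ = R * n := by rw [hR]; ring
  have hb := bound (fun k => th k * chi d k) R M N hM3 hMN hf
  have hcs : cs a u i d = ∑ n ∈ Ioc M N, th n * chi d n * (1 / ((n : ℝ) * Real.log n)) := by
    unfold cs
    have e1 : bq a (1 / (100 * u)) i = (Ioc M N).filter Nat.Prime := by
      ext p
      unfold bq
      rw [mem_filter, mem_filter, mem_range, mem_Ioc, ← hω, ← hX, ← hY, hN]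
      constructor
      · rintro ⟨h1, h2, h3⟩
        refine ⟨⟨?_, by omega⟩, h2⟩
        have := Nat.ceil_le.mpr h3
        omega
      · rintro ⟨⟨h1, h3⟩, h2⟩
        refine ⟨by omega, h2, ?_⟩
        rw [← Nat.ceil_le, hM]
        omega
    rw [e1, Finset.sum_filter]
    refine Finset.sum_congr rfl fun n hn => ?_
    rw [mem_Ioc] at hn
    unfold th
    by_cases hp : n.Prime
    · rw [if_pos hp, if_pos hp, chi_prime d n hp (by omega)]
      have hn0 : (0 : ℝ) < n := by exact_mod_cast hp.pos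
      have hl : 0 < Real.log n := Real.log_pos (by exact_mod_cast hp.one_lt)
      field_simp
    · rw [if_neg hp, if_neg hp]
      simp
  rw [hcs]
  refine hb.trans ?_
  have hlN : Real.log N ≤ κ' * L := by
    rw [Real.log_le_iff_le_exp (by exact_mod_cast (by omega : 0 < N)), ← hYe]
    exact hNY
  have h5 : 4 * (3 + κ') / (κ ^ (C₁ + 2) * η) ≤ L := by linarith
  rw [div_le_iff₀ (by positivity)] at h5
  have h6 : R ≤ 4 / (κ ^ (C₁ + 2) * L ^ 2) := by
    rw [hR, div_le_div_iff₀ (by positivity) (by positivity)]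
    calc 4 * (d : ℝ) * (κ ^ (C₁ + 2) * L ^ 2) ≤ 4 * L ^ C₁ * (κ ^ (C₁ + 2) * L ^ 2) := by
          gcongr
      _ = 4 * (κ * L) ^ (C₁ + 2) := by ring
  have h7 : 3 + Real.log N ≤ (3 + κ') * L := by nlinarith
  have h8 : 0 ≤ 3 + Real.log N := by
    have := Real.log_nonneg (show (1 : ℝ) ≤ N by exact_mod_cast (by omega : 1 ≤ N))
    linarith
  calc R * (3 + Real.log N) ≤ 4 / (κ ^ (C₁ + 2) * L ^ 2) * ((3 + κ') * L) :=
        mul_le_mul h6 h7 h8 (by positivity)
    _ = 4 * (3 + κ') / (κ ^ (C₁ + 2) * L) := by field_simp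
    _ ≤ η := by
        rw [div_le_iff₀ (by positivity)]
        nlinarith

end Pool.Agent.Helper84.EL
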